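import Pool.Agent.L5helper31.AztecFinal

/-!
# Domino tilings of the Aztec diamond with a knight's-move pair of central cells removed

Let `T n` be the number of domino tilings of the Aztec diamond of order `n` with the two unit squares
centred at `(-1/2, -1/2)` and `(1/2, 3/2)` removed, and let `p m = (C(2m, m) / 4^m)^2`. Then

* `T (4 m)     = 2^(n(n+1)/2) * (m / 2) * p m * (1 + p m)`        (`m ≥ 1`),
* `T (4 m + 1) = 2^(n(n+1)/2) * ((2 m + 1) / 4) * p m * (1 - p m)` (`m ≥ 1`),
* `T (4 m + 2) = 2^(n(n+1)/2) * ((2 m + 1) / 4) * p m`             (`m ≥ 0`),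
* `T (4 m + 3) = 2^(n(n+1)/2) * ((m + 1) / 2) * p (m + 1)`         (`m ≥ 0`),

where `n` is the order. So `T n` is known for every `n ≥ 2`.

Proof. With signs chosen as in Kasteleyn's method, `T n` is a minor of the Kasteleyn matrix of the whole
Aztec diamond in which the sign of one further entry is changed; it is the number `2^(n(n+1)/2)` of tilings
of the Aztec diamond times a polynomial in four entries of the inverse matrix. These entries are
coefficients of truncated expansions of `X^m` in the products `(1+X)^k (1-X)^(n-k)`, and all of them can be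
summed in closed form by von Szily's identity and a telescoping sum.
-/

namespace Pool.Agent.Results.MP_b90a94_co.KnightPairFormula

open Pool.Agent.Helper848 (numTilings)
open Pool.Agent.L5helper31.Aztec (knightRegion)

/-- The number of domino tilings of `D_n`, the Aztec diamond of order `n` without the unit squares
centred at `(-1/2, -1/2)` and `(1/2, 3/2)`. -/
noncomputable def T (n : ℕ) : ℕ := numTilings (knightRegion n)

/-- The rational number `(C(2m, m) / 4^m)^2`. -/
def p (m : ℕ) : ℚ := (((2 * m).choose m : ℚ) / 4 ^ m) ^ 2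

theorem p_eq (m : ℕ) : p m = Pool.Agent.L5helper31.Aztec.cb m ^ 2 / 16 ^ m := by
  unfold p Pool.Agent.L5helper31.Aztec.cb
  rw [Nat.centralBinom_eq_two_mul_choose, div_pow, ← pow_mul, mul_comm m 2, pow_mul]
  norm_num

/-- The number of domino tilings of `D_n` for every `n ≥ 2`. -/
theorem result :
    (∀ m : ℕ, 1 ≤ m →
      (T (4 * m) : ℚ) = 2 ^ (2 * m * (4 * m + 1)) * ((m : ℚ) / 2 * p m * (1 + p m))) ∧
    (∀ m : ℕ, 1 ≤ m →
      (T (4 * m + 1) : ℚ) = 2 ^ ((4 * m + 1) * (2 * m + 1)) * ((2 * (m : ℚ) + 1) / 4 * p m * (1 - p m))) ∧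
    (∀ m : ℕ,
      (T (4 * m + 2) : ℚ) = 2 ^ ((2 * m + 1) * (4 * m + 3)) * ((2 * (m : ℚ) + 1) / 4 * p m)) ∧
    (∀ m : ℕ,
      (T (4 * m + 3) : ℚ) = 2 ^ ((4 * m + 3) * (2 * m + 2)) * (((m : ℚ) + 1) / 2 * p (m + 1))) := by
  have h16 : ∀ m : ℕ, (16 : ℚ) ^ m ≠ 0 := fun m => by positivity
  have hsq : ∀ m : ℕ, (16 : ℚ) ^ (2 * m) = (16 ^ m) ^ 2 := fun m => by rw [mul_comm, pow_mul]
  refine ⟨fun m hm => ?_, fun m hm => ?_, fun m => ?_, fun m => ?_⟩
  · have h := Pool.Agent.L5helper31.Aztec.q_count0 m hm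
    have h1 := h16 m
    rw [T, h, p_eq, hsq]
    congr 1
    field_simp
  · have h := Pool.Agent.L5helper31.Aztec.q_count1 m hm
    have h1 := h16 m
    rw [T, h, p_eq, hsq]
    congr 1
    field_simp
  · have h := Pool.Agent.L5helper31.Aztec.q_count2 m
    have h1 := h16 m
    rw [T, h, p_eq]
    congr 1
    field_simp
  · have h := Pool.Agent.L5helper31.Aztec.q_count3 m
    have h1 := h16 m
    rw [T, h, p_eq, pow_succ (16 : ℚ)]
    congr 1
    field_simp
    ring

end Pool.Agent.Results.MP_b90a94_co.KnightPairFormula
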